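import Pool.Agent.Run7.h343.PV.Iface2

/-!
# Piece SEC of the project PV of helper343 (MP_347b49_nt), by helper973
-/

set_option autoImplicit false

namespace Pool.Agent.Run7.h973.PV

open Finset Complex Pool.Agent.Run7.h343.PV

/-- the clamp -/
noncomputable def cl (y : ℝ) : ℝ := min 1 (max 0 y)

theorem cl_nonneg (y : ℝ) : 0 ≤ cl y := le_min zero_le_one (le_max_left _ _)

theorem cl_le_one (y : ℝ) : cl y ≤ 1 := min_le_left _ _

theorem cl_mono {x y : ℝ} (h : x ≤ y) : cl x ≤ cl y :=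
  min_le_min_left _ (max_le_max_left _ h)

theorem cl_one {y : ℝ} (h : 1 ≤ y) : cl y = 1 := by
  unfold cl
  rw [max_eq_right (by linarith), min_eq_left h]

theorem cl_zero {y : ℝ} (h : y ≤ 0) : cl y = 0 := by
  unfold cl
  rw [max_eq_left h, min_eq_right zero_le_one]

theorem cl_lip (x y : ℝ) : |cl x - cl y| ≤ |x - y| := by
  unfold cl
  have h1 := abs_min_sub_min_le_max 1 (max 0 x) 1 (max 0 y)
  have h2 := abs_max_sub_max_le_max 0 x 0 y
  rw [sub_self, abs_zero] at h1 h2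
  exact h1.trans (max_le (abs_nonneg _) (h2.trans (max_le (abs_nonneg _) le_rfl)))

/-- the hats -/
noncomputable def ph (J U : ℝ) (i : ℕ) (t : ℝ) : ℝ :=
  cl (J + 1 + i - t / U) - (if i = 0 then 0 else cl (J + i - t / U))

theorem ph_sum (J U t : ℝ) (K : ℕ) :
    ∑ i ∈ range (K + 1), ph J U i t = cl (J + 1 + K - t / U) := by
  induction K with
  | zero => simp [ph]
  | succ K ih =>
    rw [sum_range_succ, ih]
    unfold ph
    rw [if_neg (Nat.succ_ne_zero K)]
    have : J + ((K + 1 : ℕ) : ℝ) - t / U = J + 1 + K - t / U := by push_cast; ring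
    rw [this]
    ring

theorem ph_nonneg (J U : ℝ) (i : ℕ) (t : ℝ) : 0 ≤ ph J U i t := by
  unfold ph
  split_ifs with h
  · rw [sub_zero]; exact cl_nonneg _
  · exact sub_nonneg.2 (cl_mono (by linarith))

theorem ph_le_one (J U : ℝ) (i : ℕ) (t : ℝ) : ph J U i t ≤ 1 := by
  unfold ph
  have h1 := cl_le_one (J + 1 + i - t / U)
  split_ifs with h
  · linarith
  · have := cl_nonneg (J + i - t / U)
    linarith

theorem cl_arg (a U s t : ℝ) (hU : 0 < U) : |cl (a - s / U) - cl (a - t / U)| ≤ |s - t| / U := by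
  refine (cl_lip _ _).trans (le_of_eq ?_)
  rw [show a - s / U - (a - t / U) = -((s - t) / U) by ring, abs_neg, abs_div, abs_of_pos hU]

theorem ph_lip (J U : ℝ) (hU : 0 < U) (i : ℕ) (s t : ℝ) :
    |ph J U i s - ph J U i t| ≤ 2 * (|s - t| / U) := by
  have h1 := cl_arg (J + 1 + i) U s t hU
  have h2 := cl_arg (J + i) U s t hU
  have h0 : 0 ≤ |s - t| / U := by positivity
  unfold ph
  split_ifs with h
  · rw [sub_zero, sub_zero]
    linarith
  · rw [abs_le] at h1 h2 ⊢
    constructor <;> linarith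

/-- the pieces of `w` -/
noncomputable def hh (J U : ℝ) (K : ℕ) (w : ℝ → ℝ) (i : ℕ) (t : ℝ) : ℝ :=
  if i ≤ K then w t * ph J U i t else w t * (1 - cl (J + 1 + K - t / U))

theorem hh_sum (J U : ℝ) (K : ℕ) (w : ℝ → ℝ) (t : ℝ) :
    ∑ i ∈ range (K + 2), hh J U K w i t = w t := by
  rw [sum_range_succ]
  have h1 : ∑ i ∈ range (K + 1), hh J U K w i t = w t * cl (J + 1 + K - t / U) := by
    rw [← ph_sum, mul_sum]
    refine sum_congr rfl fun i hi => ?_
    rw [mem_range] at hi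
    unfold hh
    rw [if_pos (by omega)]
  rw [h1]
  unfold hh
  rw [if_neg (by omega)]
  ring

theorem AA_sum (N : ℕ) (w : ℝ → ℝ) (h : ℕ → ℝ → ℝ) (n : ℕ)
    (hw : ∀ t, ∑ i ∈ range n, h i t = w t) {q : ℕ} (ψ : DirichletCharacter ℂ q) :
    AA N w ψ = ∑ i ∈ range n, AA N (h i) ψ := by
  unfold AA
  rw [sum_comm]
  refine sum_congr rfl fun k _ => ?_
  rw [← sum_mul, ← hw, sum_div, Complex.ofReal_sum]

theorem mu_abs (l : ℕ) : |mu l| ≤ 1 := by
  unfold mu
  have := ArithmeticFunction.abs_moebius_le_one (n := l)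
  exact_mod_cast this

theorem Mol_le {Y : ℝ} (hY : 1 < Y) {q : ℕ} (ψ : DirichletCharacter ℂ q) : ‖Mol Y ψ‖ ≤ Y := by
  unfold Mol
  have hlog : 0 < Real.log Y := Real.log_pos hY
  have h1 : ∀ l ∈ Icc 1 ⌊Y⌋₊,
      ‖((mu l * PL Y l / Real.sqrt l : ℝ) : ℂ) * ψ (l : ZMod q)‖ ≤ 1 := by
    intro l hl
    rw [mem_Icc] at hl
    have hl1 : (1 : ℝ) ≤ l := by exact_mod_cast hl.1
    have hs : 1 ≤ Real.sqrt l := Real.one_le_sqrt.2 hl1
    have hP0 : 0 ≤ PL Y l := le_max_left _ _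
    have hP1 : PL Y l ≤ 1 := by
      unfold PL
      refine max_le zero_le_one ?_
      have : 0 ≤ Real.log l / Real.log Y := div_nonneg (Real.log_nonneg hl1) hlog.le
      linarith
    rw [norm_mul, Complex.norm_real, Real.norm_eq_abs, abs_div, abs_mul, abs_of_nonneg hP0,
      abs_of_pos (by linarith : 0 < Real.sqrt l)]
    have h2 : |mu l| * PL Y l / Real.sqrt l ≤ 1 := by
      rw [div_le_one (by linarith)]
      calc |mu l| * PL Y l ≤ 1 * 1 := mul_le_mul (mu_abs l) hP1 hP0 zero_le_one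
        _ ≤ Real.sqrt l := by linarith
    calc |mu l| * PL Y l / Real.sqrt l * ‖ψ (l : ZMod q)‖ ≤ 1 * 1 :=
          mul_le_mul h2 (DirichletCharacter.norm_le_one ψ _) (norm_nonneg _) zero_le_one
      _ = 1 := one_mul 1
  calc ‖∑ l ∈ Icc 1 ⌊Y⌋₊, ((mu l * PL Y l / Real.sqrt l : ℝ) : ℂ) * ψ (l : ZMod q)‖
      ≤ ∑ l ∈ Icc 1 ⌊Y⌋₊, (1 : ℝ) := norm_sum_le_of_le _ h1
    _ = (⌊Y⌋₊ : ℝ) := by rw [sum_const, Nat.card_Icc]; simp
    _ ≤ Y := Nat.floor_le (by linarith)

theorem AA_le (N : ℕ) (h : ℝ → ℝ) (b : ℝ) (hb : ∀ t, |h t| ≤ b) {q : ℕ}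
    (ψ : DirichletCharacter ℂ q) : ‖AA N h ψ‖ ≤ N * b := by
  unfold AA
  have hb0 : 0 ≤ b := (abs_nonneg _).trans (hb 0)
  have h1 : ∀ n ∈ Icc 1 N,
      ‖((h (Real.log n) / Real.sqrt n : ℝ) : ℂ) * ψ (n : ZMod q)‖ ≤ b := by
    intro n hn
    rw [mem_Icc] at hn
    have hn1 : (1 : ℝ) ≤ n := by exact_mod_cast hn.1
    have hs : 1 ≤ Real.sqrt n := Real.one_le_sqrt.2 hn1
    rw [norm_mul, Complex.norm_real, Real.norm_eq_abs, abs_div,
      abs_of_pos (by linarith : 0 < Real.sqrt n)]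
    have h2 : |h (Real.log n)| / Real.sqrt n ≤ b := by
      rw [div_le_iff₀ (by linarith)]
      calc |h (Real.log n)| ≤ b * 1 := by rw [mul_one]; exact hb _
        _ ≤ b * Real.sqrt n := mul_le_mul_of_nonneg_left hs hb0
    calc |h (Real.log n)| / Real.sqrt n * ‖ψ (n : ZMod q)‖ ≤ b * 1 :=
          mul_le_mul h2 (DirichletCharacter.norm_le_one ψ _) (norm_nonneg _) hb0
      _ = b := mul_one b
  calc ‖∑ n ∈ Icc 1 N, ((h (Real.log n) / Real.sqrt n : ℝ) : ℂ) * ψ (n : ZMod q)‖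
      ≤ ∑ _n ∈ Icc 1 N, b := norm_sum_le_of_le _ h1
    _ = N * b := by rw [sum_const, Nat.card_Icc]; simp

theorem t_SEC : S_SMH → S_SMB → S_SEC := by
  intro hSMH hSMB δ hδ
  obtain ⟨J1, h1⟩ := hSMH δ hδ
  refine ⟨max J1 3, fun J hJ => ?_⟩
  obtain ⟨C1, hC1, ν1, h1⟩ := h1 J (le_of_max_le_left hJ)
  obtain ⟨C2, hC2, ν2, h2⟩ := hSMB J (le_of_max_le_right hJ)
  have hJ3 : 3 ≤ J := le_of_max_le_right hJ
  have hJr : (3 : ℝ) ≤ J := by exact_mod_cast hJ3
  obtain ⟨a, ha⟩ : ∃ a : ℝ, a = 10 * J + 3 := ⟨_, rfl⟩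
  obtain ⟨B0, hB0⟩ : ∃ B0 : ℝ, B0 = 4 * Real.exp (a ^ 2 / 2) := ⟨_, rfl⟩
  obtain ⟨K, hK⟩ : ∃ K : ℕ, K = 9 * J + 1 := ⟨_, rfl⟩
  have hB0p : 0 < B0 := by rw [hB0]; positivity
  refine ⟨((K + 2 : ℕ) : ℝ) * (((K + 2 : ℕ) : ℝ) * (C1 + C2 + B0 ^ 2)), by positivity,
    max (max ν1 ν2) 1, ?_⟩
  intro p ν m hmν _ χ w hp hp2 hν h2m hpm hχ hw01 hwlip hwlow hwup
  have hν1 : ν1 ≤ ν := (le_max_left ν1 ν2).trans ((le_max_left _ 1).trans hν)
  have hν2 : ν2 ≤ ν := (le_max_right ν1 ν2).trans ((le_max_left _ 1).trans hν)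
  have hν3 : 1 ≤ ν := (le_max_right _ 1).trans hν
  have hp1 : (1 : ℝ) < p := by exact_mod_cast hp.one_lt
  have hq1 : (1 : ℝ) < (p : ℝ) ^ ν := one_lt_pow₀ hp1 (by omega)
  have hpm0 : (0 : ℝ) < (p : ℝ) ^ m := by positivity
  obtain ⟨U, hUdef⟩ : ∃ U : ℝ, U = UU J p ν := ⟨_, rfl⟩
  rw [← hUdef] at hwlip hwlow hwup
  have hlogq : 0 < Real.log ((p : ℝ) ^ ν) := Real.log_pos hq1
  have hU : 0 < U := by
    rw [hUdef]
    unfold UU
    positivity
  have hqexp : (p : ℝ) ^ ν = Real.exp (20 * J * U) := by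
    rw [hUdef]
    unfold UU
    rw [show 20 * (J : ℝ) * (Real.log ((p : ℝ) ^ ν) / (20 * J)) = Real.log ((p : ℝ) ^ ν) by
      field_simp, Real.exp_log (by linarith)]
  have hYY : YY J p ν = Real.exp U := by unfold YY; rw [hUdef]
  have hNN : NN J p ν = ⌈Real.exp ((10 * J + 2) * U)⌉₊ := by unfold NN; rw [hUdef]
  have hpm13 : ((p : ℝ) ^ ν) ^ (1 / 3 : ℝ) ≤ (p : ℝ) ^ m :=
    (Real.rpow_le_rpow_of_exponent_le hq1.le (by linarith)).trans hpm
  have hm1 : 1 ≤ m := by
    by_contra hcon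
    have hm0 : m = 0 := by omega
    rw [hm0, pow_zero] at hpm
    have := Real.one_lt_rpow hq1 (by linarith : 0 < 1 / 3 + δ)
    linarith
  obtain ⟨h, hh'⟩ : ∃ h : ℕ → ℝ → ℝ, h = hh J U K w := ⟨_, rfl⟩
  have hsum : ∀ t, ∑ i ∈ range (K + 2), h i t = w t := by
    intro t; rw [hh']; exact hh_sum J U K w t
  -- the bound for each piece
  have hpiece : ∀ i ∈ range (K + 2), ∑ θ : DirichletCharacter ℂ (p ^ m),
      ‖Mol (YY J p ν) (tw hmν χ θ) * AA (NN J p ν) (h i) (tw hmν χ θ)‖ ^ 2 ≤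
        (C1 + C2 + B0 ^ 2) * (p : ℝ) ^ m := by
    intro i hi
    rw [mem_range] at hi
    have hB02 : 0 ≤ B0 ^ 2 := sq_nonneg _
    by_cases hiK : i ≤ K
    · -- hats
      have hhi : ∀ t, h i t = w t * ph J U i t := by
        intro t; rw [hh']; unfold hh; rw [if_pos hiK]
      have habs : ∀ t, |h i t| ≤ 1 := by
        intro t
        rw [hhi, abs_of_nonneg (mul_nonneg (hw01 t).1 (ph_nonneg _ _ _ _))]
        calc w t * ph J U i t ≤ 1 * 1 :=
              mul_le_mul (hw01 t).2 (ph_le_one _ _ _ _) (ph_nonneg _ _ _ _) zero_le_one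
          _ = 1 := one_mul 1
      have hlip : ∀ s t, |h i s - h i t| ≤ 4 * |s - t| / UU J p ν := by
        intro s t
        rw [← hUdef, hhi, hhi]
        have e1 : w s * ph J U i s - w t * ph J U i t =
            (w s - w t) * ph J U i s + w t * (ph J U i s - ph J U i t) := by ring
        rw [e1]
        have e2 : |(w s - w t) * ph J U i s| ≤ |s - t| / U * 1 := by
          rw [abs_mul]
          refine mul_le_mul (hwlip s t) ?_ (abs_nonneg _) (by positivity)
          rw [abs_of_nonneg (ph_nonneg _ _ _ _)]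
          exact ph_le_one _ _ _ _
        have e3 : |w t * (ph J U i s - ph J U i t)| ≤ 1 * (2 * (|s - t| / U)) := by
          rw [abs_mul]
          refine mul_le_mul ?_ (ph_lip _ _ hU _ _ _) (abs_nonneg _) zero_le_one
          rw [abs_of_nonneg (hw01 t).1]
          exact (hw01 t).2
        have e4 := abs_add_le ((w s - w t) * ph J U i s) (w t * (ph J U i s - ph J U i t))
        have e5 : 4 * |s - t| / U = 4 * (|s - t| / U) := by ring
        have e6 : 0 ≤ |s - t| / U := by positivity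
        rw [e5]
        linarith
      have hup : ∀ t, (J + i + 1) * UU J p ν ≤ t → h i t = 0 := by
        intro t ht
        rw [← hUdef] at ht
        have e1 : (J : ℝ) + i + 1 ≤ t / U := (le_div_iff₀ hU).2 ht
        rw [hhi]
        unfold ph
        rw [cl_zero (by linarith)]
        split_ifs with h0
        · ring
        · rw [cl_zero (by linarith)]; ring
      by_cases hi0 : i = 0
      · -- the bottom
        subst hi0
        have h3 := h2 p ν m hmν χ (h 0) hp hν2 hm1 hpm13 habs hlip (fun t ht => ?_)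
          (fun t ht => hup t (by simpa using ht))
        · refine h3.trans ?_
          have : 0 ≤ (C1 + B0 ^ 2) * (p : ℝ) ^ m := by positivity
          linarith [this]
        · rw [← hUdef] at ht ⊢
          have e1 : t / U ≤ J := (div_le_iff₀ hU).2 ht
          have e2 : h 0 t = w t := by
            rw [hhi]
            unfold ph
            rw [if_pos rfl, cl_one (by push_cast; linarith)]
            ring
          rw [e2, abs_of_nonneg (by linarith [(hw01 t).2])]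
          exact hwlow t
      · have hi1 : 1 ≤ i := Nat.one_le_iff_ne_zero.2 hi0
        have h3 := h1 p ν m hmν χ (h i) i hp hp2 hν1 h2m hpm hχ hi1 (by omega) habs hlip
          (fun t ht => ?_) hup
        · refine h3.trans ?_
          have : 0 ≤ (C2 + B0 ^ 2) * (p : ℝ) ^ m := by positivity
          linarith [this]
        · rw [← hUdef] at ht
          have e1 : t / U ≤ (J : ℝ) + i - 1 := (div_le_iff₀ hU).2 ht
          rw [hhi]
          unfold ph
          rw [if_neg hi0, cl_one (by linarith), cl_one (by linarith)]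
          ring
    · -- the top
      have hhi : ∀ t, h i t = w t * (1 - cl (J + 1 + K - t / U)) := by
        intro t; rw [hh']; unfold hh; rw [if_neg hiK]
      have hKr : (J : ℝ) + 1 + K = 10 * J + 2 := by rw [hK]; push_cast; ring
      have habs : ∀ t, |h i t| ≤ 2 * Real.exp (-Real.exp U) := by
        intro t
        have c0 := cl_nonneg (J + 1 + K - t / U)
        have c1 := cl_le_one (J + 1 + K - t / U)
        rcases le_or_gt t ((10 * J + 1) * U) with ht | ht
        · have e1 : t / U ≤ 10 * J + 1 := (div_le_iff₀ hU).2 ht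
          rw [hhi, cl_one (by linarith), sub_self, mul_zero, abs_zero]
          positivity
        · rw [hhi, abs_of_nonneg (mul_nonneg (hw01 t).1 (by linarith))]
          have e1 : w t * (1 - cl (J + 1 + K - t / U)) ≤ w t * 1 :=
            mul_le_mul_of_nonneg_left (by linarith) (hw01 t).1
          have e2 : Real.exp U ≤ Real.exp (2 * t - U) / (p : ℝ) ^ ν := by
            rw [hqexp, ← Real.exp_sub, Real.exp_le_exp]
            nlinarith
          have e3 := hwup t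
          have e4 : Real.exp (-(Real.exp (2 * t - U) / (p : ℝ) ^ ν)) ≤ Real.exp (-Real.exp U) :=
            Real.exp_le_exp.2 (by linarith)
          linarith
      have hY1 : 1 < YY J p ν := by rw [hYY]; exact Real.one_lt_exp_iff.2 hU
      have hN : ((NN J p ν : ℕ) : ℝ) ≤ 2 * Real.exp ((10 * J + 2) * U) := by
        rw [hNN]
        have e1 := (Nat.ceil_lt_add_one (Real.exp_pos ((10 * J + 2) * U)).le).le
        have e2 : 1 ≤ Real.exp ((10 * J + 2) * U) := Real.one_le_exp (by positivity)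
        linarith
      have hone : ∀ θ : DirichletCharacter ℂ (p ^ m),
          ‖Mol (YY J p ν) (tw hmν χ θ) * AA (NN J p ν) (h i) (tw hmν χ θ)‖ ^ 2 ≤ B0 ^ 2 := by
        intro θ
        refine pow_le_pow_left₀ (norm_nonneg _) ?_ 2
        rw [norm_mul]
        have e1 := Mol_le hY1 (tw hmν χ θ)
        have e2 := AA_le (NN J p ν) (h i) _ habs (tw hmν χ θ)
        have e3 : ((NN J p ν : ℕ) : ℝ) * (2 * Real.exp (-Real.exp U)) ≤
            2 * Real.exp ((10 * J + 2) * U) * (2 * Real.exp (-Real.exp U)) :=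
          mul_le_mul_of_nonneg_right hN (by positivity)
        calc ‖Mol (YY J p ν) (tw hmν χ θ)‖ * ‖AA (NN J p ν) (h i) (tw hmν χ θ)‖
            ≤ YY J p ν * (2 * Real.exp ((10 * J + 2) * U) * (2 * Real.exp (-Real.exp U))) :=
              mul_le_mul e1 (e2.trans e3) (norm_nonneg _) (by linarith)
          _ = 4 * Real.exp (a * U - Real.exp U) := by
              rw [hYY, show a * U - Real.exp U = U + (10 * J + 2) * U + -Real.exp U by
                rw [ha]; ring, Real.exp_add, Real.exp_add]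
              ring
          _ ≤ B0 := by
              rw [hB0]
              have e4 := Real.quadratic_le_exp_of_nonneg hU.le
              have e5 : a * U - Real.exp U ≤ a ^ 2 / 2 := by nlinarith [sq_nonneg (a - U)]
              have := Real.exp_le_exp.2 e5
              linarith
      have hcard : ((Fintype.card (DirichletCharacter ℂ (p ^ m)) : ℕ) : ℝ) ≤ (p : ℝ) ^ m := by
        have e1 : Nat.card (DirichletCharacter ℂ (p ^ m)) = (p ^ m).totient :=
          DirichletCharacter.card_eq_totient_of_hasEnoughRootsOfUnity ℂ (p ^ m)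
        rw [← Nat.card_eq_fintype_card, e1]
        exact_mod_cast Nat.totient_le (p ^ m)
      calc ∑ θ : DirichletCharacter ℂ (p ^ m),
            ‖Mol (YY J p ν) (tw hmν χ θ) * AA (NN J p ν) (h i) (tw hmν χ θ)‖ ^ 2
          ≤ ∑ _θ : DirichletCharacter ℂ (p ^ m), B0 ^ 2 := sum_le_sum fun θ _ => hone θ
        _ = (Fintype.card (DirichletCharacter ℂ (p ^ m)) : ℝ) * B0 ^ 2 := by
            rw [sum_const, card_univ, nsmul_eq_mul]
        _ ≤ (p : ℝ) ^ m * B0 ^ 2 := mul_le_mul_of_nonneg_right hcard hB02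
        _ ≤ (C1 + C2 + B0 ^ 2) * (p : ℝ) ^ m := by
            have : 0 ≤ (C1 + C2) * (p : ℝ) ^ m := by positivity
            linarith [this]
  -- assembly
  have hθ : ∀ θ : DirichletCharacter ℂ (p ^ m),
      ‖Mol (YY J p ν) (tw hmν χ θ) * AA (NN J p ν) w (tw hmν χ θ)‖ ^ 2 ≤
        ((K + 2 : ℕ) : ℝ) * ∑ i ∈ range (K + 2),
          ‖Mol (YY J p ν) (tw hmν χ θ) * AA (NN J p ν) (h i) (tw hmν χ θ)‖ ^ 2 := by
    intro θ
    rw [AA_sum (NN J p ν) w h (K + 2) hsum, mul_sum]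
    have e1 := pow_le_pow_left₀ (norm_nonneg _) (norm_sum_le (range (K + 2)) fun i =>
      Mol (YY J p ν) (tw hmν χ θ) * AA (NN J p ν) (h i) (tw hmν χ θ)) 2
    refine e1.trans ?_
    have e2 := sq_sum_le_card_mul_sum_sq (s := range (K + 2)) (f := fun i =>
      ‖Mol (YY J p ν) (tw hmν χ θ) * AA (NN J p ν) (h i) (tw hmν χ θ)‖)
    rw [card_range] at e2
    exact e2
  calc ∑ θ : DirichletCharacter ℂ (p ^ m),
        ‖Mol (YY J p ν) (tw hmν χ θ) * AA (NN J p ν) w (tw hmν χ θ)‖ ^ 2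
      ≤ ∑ θ : DirichletCharacter ℂ (p ^ m), ((K + 2 : ℕ) : ℝ) * ∑ i ∈ range (K + 2),
          ‖Mol (YY J p ν) (tw hmν χ θ) * AA (NN J p ν) (h i) (tw hmν χ θ)‖ ^ 2 :=
        sum_le_sum fun θ _ => hθ θ
    _ = ((K + 2 : ℕ) : ℝ) * ∑ i ∈ range (K + 2), ∑ θ : DirichletCharacter ℂ (p ^ m),
          ‖Mol (YY J p ν) (tw hmν χ θ) * AA (NN J p ν) (h i) (tw hmν χ θ)‖ ^ 2 := by
        rw [← mul_sum, sum_comm]
    _ ≤ ((K + 2 : ℕ) : ℝ) * ∑ _i ∈ range (K + 2), (C1 + C2 + B0 ^ 2) * (p : ℝ) ^ m :=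
        mul_le_mul_of_nonneg_left (sum_le_sum hpiece) (Nat.cast_nonneg _)
    _ = ((K + 2 : ℕ) : ℝ) * (((K + 2 : ℕ) : ℝ) * (C1 + C2 + B0 ^ 2)) * (p : ℝ) ^ m := by
        rw [sum_const, card_range, nsmul_eq_mul]
        ring

end Pool.Agent.Run7.h973.PV
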